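import Mathlib
import Pool.Agent.H1.Ample.FieldThm
import Pool.Agent.H1.Ample.DimOne
import Pool.Agent.H1.Ample.SchemeW
import Pool.Agent.H1.Ample.CurveN

set_option autoImplicit false

/-!
# A weakly ample field which is not virtually ample

The definitions below are those of the problem, stated with the schemes of Mathlib.
-/

namespace Pool.Agent.Results.MP_0a37ce_al.WeaklyNotVirtually

open AlgebraicGeometry CategoryTheory

/-- `f : C ⟶ Spec K` makes `C` a `K`-curve: a geometrically integral separated `K`-scheme of
finite type of dimension `1`. -/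
structure IsCurve (K : Type) [Field K] {C : Scheme.{0}} (f : C ⟶ Spec (.of K)) : Prop where
  geometricallyIntegral : GeometricallyIntegral f
  isSeparated : IsSeparated f
  locallyOfFiniteType : LocallyOfFiniteType f
  quasiCompact : QuasiCompact f
  dimension_one : topologicalKrullDim C = 1

/-- The set `C(L)` of `L`-rational points of the `K`-scheme `f : C ⟶ Spec K`: the `K`-morphisms
`Spec L ⟶ C`. -/
def Points (K L : Type) [Field K] [Field L] [Algebra K L] {C : Scheme.{0}}
    (f : C ⟶ Spec (.of K)) : Type :=
  {g : Spec (.of L) ⟶ C // g ≫ f = Spec.map (CommRingCat.ofHom (algebraMap K L))}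

/-- `K` is ample: every smooth `K`-curve with a `K`-rational point has infinitely many. -/
def Ample (K : Type) [Field K] : Prop :=
  ∀ (C : Scheme.{0}) (f : C ⟶ Spec (.of K)), IsCurve K f → Smooth f →
    Nonempty (Points K K f) → Infinite (Points K K f)

/-- `K` is virtually ample: some finite extension of `K` is ample. -/
def VirtuallyAmple (K : Type) [Field K] : Prop :=
  ∃ (L : Type) (_ : Field L) (_ : Algebra K L), FiniteDimensional K L ∧ Ample L

/-- `K` is weakly ample: for every `K`-curve `C` there is a finite extension `L/K` with `C(L)`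
infinite. -/
def WeaklyAmple (K : Type) [Field K] : Prop :=
  ∀ (C : Scheme.{0}) (f : C ⟶ Spec (.of K)), IsCurve K f →
    ∃ (L : Type) (_ : Field L) (_ : Algebra K L), FiniteDimensional K L ∧
      Infinite (Points K L f)

/-- There is a field (of characteristic zero) which is weakly ample but not virtually ample. -/
theorem result : ∃ (K : Type) (_ : Field K), CharZero K ∧ WeaklyAmple K ∧ ¬ VirtuallyAmple K := by
  classical
  obtain ⟨K, iK, hK0, hW, hN⟩ := Pool.Agent.H1.Ample.field_thm
  refine ⟨K, iK, hK0, ?_, ?_⟩
  · intro C f hC
    have h1 := hC.geometricallyIntegral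
    have h2 := hC.locallyOfFiniteType
    obtain ⟨A, iA, iKA, j, hjo, hj, hft, hdom, hA, hAf, hAk⟩ :=
      Pool.Agent.H1.Ample.schemeW C f hC.dimension_one
    obtain ⟨Y, hY⟩ := (Algebra.FiniteType.out : (⊤ : Subalgebra K A).FG)
    let x : Fin Y.card → A := fun i => (Y.equivFin.symm i : A)
    have hx : Set.range x = (Y : Set A) := by
      ext a
      constructor
      · rintro ⟨i, rfl⟩
        exact (Y.equivFin.symm i).2
      · intro ha
        exact ⟨Y.equivFin ⟨a, ha⟩, by simp [x]⟩
    have hgen : Algebra.adjoin K (Set.range x) = ⊤ := by rw [hx, hY]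
    -- some generator is transcendental
    obtain ⟨l₀, hl₀⟩ : ∃ l₀, Transcendental K (x l₀) := by
      by_contra hcon
      push Not at hcon
      apply hAf
      have halg : Algebra.IsAlgebraic K A := by
        refine ⟨fun a => ?_⟩
        have ha : a ∈ Algebra.adjoin K (Set.range x) := by rw [hgen]; trivial
        induction ha using Algebra.adjoin_induction with
        | mem y hy =>
          obtain ⟨l, rfl⟩ := hy
          have := hcon l
          rw [Transcendental, not_not] at this
          exact this
        | algebraMap r => exact isAlgebraic_algebraMap r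
        | add y z _ _ hy hz => exact hy.add hz
        | mul y z _ _ hy hz => exact hy.mul hz
      have hint : Algebra.IsIntegral K A := Algebra.IsAlgebraic.isIntegral
      exact isField_of_isIntegral_of_isField' (Field.toIsField K)
    have hmax : ∀ P : Ideal A, P ≠ ⊥ → P.IsPrime → P.IsMaximal :=
      Ring.krullDimLE_one_iff_of_noZeroDivisors.mp hAk
    obtain ⟨L, iL, iKL, hfin, hinf⟩ := hW A Y.card x l₀ hgen hdom hl₀
      (fun l => Pool.Agent.H1.Ample.alg_of_dim_le_one hmax hl₀ (x l))
    refine ⟨L, iL, iKL, hfin, ?_⟩
    have hmk : ∀ α : A →ₐ[K] L, (Spec.map (CommRingCat.ofHom α.toRingHom) ≫ j) ≫ f =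
        Spec.map (CommRingCat.ofHom (algebraMap K L)) := by
      intro α
      rw [Category.assoc, hj, ← Spec.map_comp, ← CommRingCat.ofHom_comp]
      congr 2
      exact α.comp_algebraMap
    let Ψ : (A →ₐ[K] L) → Points K L f := fun α => ⟨_, hmk α⟩
    refine Infinite.of_injective Ψ ?_
    intro α β hαβ
    have h3 : Spec.map (CommRingCat.ofHom α.toRingHom) ≫ j =
        Spec.map (CommRingCat.ofHom β.toRingHom) ≫ j := congrArg Subtype.val hαβ
    rw [cancel_mono] at h3
    have h4 := Spec.map_injective h3
    have h5 : α.toRingHom = β.toRingHom := congrArg CommRingCat.Hom.hom h4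
    ext a
    exact congrArg (fun r : A →+* L => r a) h5
  · rintro ⟨L, iL, iKL, hfin, hL⟩
    have hL0 : CharZero L := charZero_of_injective_algebraMap (algebraMap K L).injective
    obtain ⟨c, hc, N, hN3, hpts⟩ := hN L
    have hm : 2 * N ≠ 0 := by omega
    let B := Pool.Agent.H1.Ample.QRing L c (2 * N)
    have hB : IsDomain B := Pool.Agent.H1.Ample.q_isDomain hc hm
    obtain ⟨hBf, hBk⟩ := Pool.Agent.H1.Ample.q_krullDimLE (F := L) (c := c) hc hm
    have hBs : Algebra.Smooth L B := Pool.Agent.H1.Ample.q_smooth hm
    let f : Spec (.of B) ⟶ Spec (.of L) := Spec.map (CommRingCat.ofHom (algebraMap L B))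
    have hdim : topologicalKrullDim (Spec (.of B)) = 1 := by
      have h1 : topologicalKrullDim (Spec (.of B)) = ringKrullDim B :=
        PrimeSpectrum.topologicalKrullDim_eq_ringKrullDim B
      rw [h1]
      apply le_antisymm
      · have := (Ring.krullDimLE_iff (n := 1) (R := B)).mp hBk
        exact this
      · by_contra hlt
        apply hBf
        have h2 : ringKrullDim B ≤ 0 := Order.le_of_lt_succ (lt_of_not_ge hlt)
        have h3 : Ring.KrullDimLE 0 B := by
          rw [Ring.krullDimLE_iff]; exact h2
        exact Ring.KrullDimLE.isField_of_isDomain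
    have hcurve : IsCurve L f := by
      refine ⟨⟨?_⟩, inferInstance, ?_, inferInstance, hdim⟩
      · rw [geometrically_iff_of_commRing]
        intro F _ _ Z fst snd hpb
        have h1 : IsDomain (TensorProduct L F B) :=
          Pool.Agent.H1.Ample.q_tensor_isDomain (F := L) (L := F) hc hm
        have h2 : IsDomain (TensorProduct L B F) :=
          (Algebra.TensorProduct.comm L B F).toRingEquiv.toMulEquiv.isDomain _
        have h3 : IsIntegral (Spec (.of (TensorProduct L B F))) := by
          rw [affine_isIntegral_iff]; exact h2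
        let e := hpb.isoPullback ≪≫ pullbackSpecIso L B F
        have h4 : Nonempty Z := by
          have h5 : Nonempty (Spec (.of (TensorProduct L B F))) := inferInstance
          exact ⟨e.inv h5.some⟩
        exact isIntegral_of_isOpenImmersion e.hom
      · rw [HasRingHomProperty.Spec_iff (P := @LocallyOfFiniteType)]
        exact RingHom.finiteType_algebraMap.mpr inferInstance
    have hsmooth : Smooth f := by
      rw [HasRingHomProperty.Spec_iff (P := @Smooth)]
      exact RingHom.smooth_algebraMap.mpr hBs
    -- points are homomorphisms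
    have hto : ∀ g : Points L L f, ∃ φ : B →ₐ[L] L,
        Spec.map (CommRingCat.ofHom φ.toRingHom) = g.1 := by
      rintro ⟨g, hg⟩
      obtain ⟨φ, rfl⟩ := Spec.map_surjective g
      have h1 : Spec.map (CommRingCat.ofHom (algebraMap L B) ≫ φ) =
          Spec.map (CommRingCat.ofHom (algebraMap L L)) := by
        rw [Spec.map_comp]; exact hg
      have h2 := Spec.map_injective h1
      have h3 : φ.hom.comp (algebraMap L B) = algebraMap L L :=
        congrArg CommRingCat.Hom.hom h2
      exact ⟨{ φ.hom with commutes' := fun r => congrArg (fun q : L →+* L => q r) h3 }, rfl⟩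
    have hfinpts : Finite (Points L L f) := by
      have h1 : Finite (B →ₐ[L] L) := Pool.Agent.H1.Ample.q_finite hm hpts
      choose φ hφ using hto
      refine Finite.of_injective φ ?_
      intro g g' hgg
      apply Subtype.ext
      rw [← hφ g, ← hφ g', hgg]
    have hne : Nonempty (Points L L f) := by
      obtain ⟨φ, -, -⟩ := Pool.Agent.H1.Ample.exists_qhom (F := L) (T := L) (c := c)
        (m := 2 * N) (x := 1) (y := 0) (by simp)
      refine ⟨⟨Spec.map (CommRingCat.ofHom φ.toRingHom), ?_⟩⟩
      rw [← Spec.map_comp, ← CommRingCat.ofHom_comp]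
      congr 2
      exact φ.comp_algebraMap
    exact (hL _ f hcurve hsmooth hne).not_finite hfinpts

end Pool.Agent.Results.MP_0a37ce_al.WeaklyNotVirtually
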